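import Pool.Agent.H12.UCR.Stmts

/-!
Row AVG: the coefficients of an invariant measure are close to a convex combination of those of periodic
orbits.
-/

set_option autoImplicit false

open MeasureTheory Filter Topology

namespace Pool.UCR

lemma avg_inv_step (p : ℕ) (μ : PP p) (j : ℕ) : fc μ (j * p) = fc μ j := by
  have hc : Continuous fun x : UnitAddCircle => p • x := by fun_prop
  have e : ∀ x : UnitAddCircle, (fourier ((j * p : ℕ) : ℤ) x : ℂ) = fourier (j : ℤ) (p • x) := by
    intro x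
    rw [fourier_apply, fourier_apply]
    congr 2
    push_cast
    rw [mul_smul, natCast_zsmul x p]
  have h : ∫ y, fourier (j : ℤ) y ∂(((μ.1 : ProbabilityMeasure UnitAddCircle) :
      Measure UnitAddCircle).map (fun x : UnitAddCircle => p • x)) =
      ∫ x, fourier (j : ℤ) (p • x) ∂((μ.1 : ProbabilityMeasure UnitAddCircle) :
        Measure UnitAddCircle) :=
    integral_map hc.measurable.aemeasurable (map_continuous _).aestronglyMeasurable
  rw [μ.2] at h
  unfold fc
  rw [h]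
  simp only [e]

lemma avg_inv (p : ℕ) (μ : PP p) (i j : ℕ) : fc μ (j * p ^ i) = fc μ j := by
  induction i generalizing j with
  | zero => rw [pow_zero, mul_one]
  | succ i ih => rw [pow_succ, ← mul_assoc, avg_inv_step, ih]

/-- the exponential is Lipschitz -/
lemma avg_exp (u v : ℝ) : ‖Complex.exp (Complex.I * u) - Complex.exp (Complex.I * v)‖ ≤ |u - v| := by
  have h : Complex.exp (Complex.I * u) - Complex.exp (Complex.I * v) =
      Complex.exp (Complex.I * v) * (Complex.exp (Complex.I * ((u - v : ℝ) : ℂ)) - 1) := by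
    rw [mul_sub, ← Complex.exp_add, mul_one]
    congr 2
    push_cast
    ring
  rw [h, norm_mul]
  have h1 : ‖Complex.exp (Complex.I * v)‖ = 1 := by
    rw [mul_comm]
    exact Complex.norm_exp_ofReal_mul_I v
  rw [h1, one_mul]
  exact Real.norm_exp_I_mul_ofReal_sub_one_le

/-- the coordinate in `[0, 1)` -/
noncomputable def avgT (x : UnitAddCircle) : ℝ := (AddCircle.measurableEquivIco (1 : ℝ) 0 x : ℝ)

lemma avgT_meas : Measurable avgT :=
  measurable_subtype_coe.comp (AddCircle.measurableEquivIco (1 : ℝ) 0).measurable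

lemma avgT_mem (x : UnitAddCircle) : 0 ≤ avgT x ∧ avgT x < 1 := by
  have h := (AddCircle.measurableEquivIco (1 : ℝ) 0 x).2
  exact ⟨h.1, lt_of_lt_of_eq h.2 (zero_add 1)⟩

lemma avgT_coe (x : UnitAddCircle) : ((avgT x : ℝ) : UnitAddCircle) = x :=
  AddCircle.coe_equivIco (p := (1 : ℝ)) (a := 0) (y := x)

/-- the index of the interval -/
noncomputable def avgI (P : ℕ) (x : UnitAddCircle) : ℕ := ⌊avgT x * P⌋₊

lemma avgI_meas (P : ℕ) : Measurable (avgI P) :=
  Nat.measurable_floor.comp (avgT_meas.mul_const _)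

lemma avgI_lt (P : ℕ) (hP : 0 < P) (x : UnitAddCircle) : avgI P x < P := by
  have hP' : (0 : ℝ) < P := by exact_mod_cast hP
  obtain ⟨h0, h1⟩ := avgT_mem x
  unfold avgI
  rw [Nat.floor_lt (mul_nonneg h0 hP'.le)]
  nlinarith

lemma avgI_near (P : ℕ) (hP : 2 ≤ P) (x : UnitAddCircle) :
    |avgT x - avgI P x / ((P : ℝ) - 1)| ≤ 1 / P := by
  have hP' : (2 : ℝ) ≤ P := by exact_mod_cast hP
  obtain ⟨h0, h1⟩ := avgT_mem x
  have hlt : avgI P x + 1 ≤ P := avgI_lt P (by omega) x
  have hlt' : (avgI P x : ℝ) + 1 ≤ P := by exact_mod_cast hlt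
  have ha0 : (0 : ℝ) ≤ avgI P x := Nat.cast_nonneg _
  have hle : (avgI P x : ℝ) ≤ avgT x * P := Nat.floor_le (by positivity)
  have hgt : avgT x * P < (avgI P x : ℝ) + 1 := Nat.lt_floor_add_one _
  have hP0 : (0 : ℝ) < P := by linarith
  have hP1 : (0 : ℝ) < (P : ℝ) - 1 := by linarith
  have e1 : (avgI P x : ℝ) / P ≤ avgT x := by rw [div_le_iff₀ hP0]; exact hle
  have e2 : avgT x ≤ ((avgI P x : ℝ) + 1) / P := by rw [le_div_iff₀ hP0]; exact hgt.le
  have e3 : (avgI P x : ℝ) / P ≤ avgI P x / ((P : ℝ) - 1) :=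
    div_le_div_of_nonneg_left ha0 hP1 (by linarith)
  have e4 : (avgI P x : ℝ) / ((P : ℝ) - 1) ≤ ((avgI P x : ℝ) + 1) / P := by
    rw [div_le_div_iff₀ hP1 hP0]
    nlinarith
  have e5 : ((avgI P x : ℝ) + 1) / P = avgI P x / P + 1 / P := add_div _ _ _
  rw [abs_le]
  constructor <;> linarith

lemma avg_sumw (P : ℕ) (hP : 0 < P) (m : Measure UnitAddCircle) [IsProbabilityMeasure m] (F : ℕ → ℂ) :
    ∑ a ∈ Finset.range P, ((m.real (avgI P ⁻¹' {a}) : ℝ) : ℂ) * F a = ∫ x, F (avgI P x) ∂m := by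
  have hms : ∀ a : ℕ, MeasurableSet (avgI P ⁻¹' {a}) := fun a =>
    avgI_meas P (MeasurableSet.singleton a)
  have h1 : ∀ x, F (avgI P x) =
      ∑ a ∈ Finset.range P, (avgI P ⁻¹' {a}).indicator (fun _ => F a) x := by
    intro x
    rw [Finset.sum_eq_single (avgI P x)]
    · rw [Set.indicator_of_mem]
      exact rfl
    · intro b _ hb
      rw [Set.indicator_of_notMem]
      intro h
      exact hb h.symm
    · intro h
      exact absurd (Finset.mem_range.mpr (avgI_lt P hP x)) h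
  have h2 : ∫ x, F (avgI P x) ∂m =
      ∫ x, ∑ a ∈ Finset.range P, (avgI P ⁻¹' {a}).indicator (fun _ => F a) x ∂m := by
    simp only [h1]
  rw [h2, integral_finsetSum]
  · refine Finset.sum_congr rfl fun a _ => ?_
    rw [integral_indicator_const _ (hms a), Complex.real_smul]
  · intro a _
    exact (integrable_const (F a)).indicator (hms a)

lemma avg_geom (p L : ℕ) (hp : 2 ≤ p) : ∑ l ∈ Finset.range L, (p : ℝ) ^ l ≤ (p : ℝ) ^ L := by
  have hp' : (2 : ℝ) ≤ p := by exact_mod_cast hp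
  induction L with
  | zero => simp
  | succ L ih =>
    rw [Finset.sum_range_succ, pow_succ]
    have : (0 : ℝ) ≤ (p : ℝ) ^ L := by positivity
    nlinarith

lemma avg_point (p L : ℕ) (hp : 2 ≤ p) (hL : 1 ≤ L) (j : ℕ) (x : UnitAddCircle) :
    ‖(L : ℂ)⁻¹ * ∑ l ∈ Finset.range L, (fourier ((j * p ^ l : ℕ) : ℤ) x : ℂ) -
      S p L (avgI (p ^ L) x) j‖ ≤ 7 * j / L := by
  have hL0 : (0 : ℝ) < L := by exact_mod_cast hL
  have hP2 : 2 ≤ p ^ L := le_trans hp (Nat.le_self_pow (by omega) p)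
  have hnear := avgI_near (p ^ L) hP2 x
  set a := avgI (p ^ L) x with ha
  set t := avgT x with ht
  have hP0 : (0 : ℝ) < (p : ℝ) ^ L := by
    have : (0 : ℝ) < p := by exact_mod_cast (by omega : 0 < p)
    positivity
  push_cast at hnear
  have hf : ∀ l : ℕ, (fourier ((j * p ^ l : ℕ) : ℤ) x : ℂ) =
      Complex.exp (Complex.I * ((2 * Real.pi * (j * p ^ l) * t : ℝ) : ℂ)) := by
    intro l
    rw [← avgT_coe x, fourier_coe_apply, ← ht]
    congr 1
    push_cast
    ring
  have hs : ∀ l : ℕ, Complex.exp (2 * Real.pi * Complex.I * ((j : ℂ) * a * (p : ℂ) ^ l / ((p : ℂ) ^ L - 1))) =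
      Complex.exp (Complex.I * ((2 * Real.pi * (j * p ^ l) * (a / ((p : ℝ) ^ L - 1)) : ℝ) : ℂ)) := by
    intro l
    congr 1
    push_cast
    ring
  unfold S
  rw [← mul_sub, ← Finset.sum_sub_distrib, norm_mul]
  have hn : ‖((L : ℂ))⁻¹‖ = (L : ℝ)⁻¹ := by rw [norm_inv, Complex.norm_natCast]
  rw [hn]
  have hsum : ‖∑ l ∈ Finset.range L, ((fourier ((j * p ^ l : ℕ) : ℤ) x : ℂ) -
      Complex.exp (2 * Real.pi * Complex.I * ((j : ℂ) * a * (p : ℂ) ^ l / ((p : ℂ) ^ L - 1))))‖ ≤
      2 * Real.pi * j := by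
    calc _ ≤ ∑ l ∈ Finset.range L, ‖((fourier ((j * p ^ l : ℕ) : ℤ) x : ℂ) -
          Complex.exp (2 * Real.pi * Complex.I * ((j : ℂ) * a * (p : ℂ) ^ l / ((p : ℂ) ^ L - 1))))‖ :=
          norm_sum_le _ _
      _ ≤ ∑ l ∈ Finset.range L, 2 * Real.pi * j * (p : ℝ) ^ l * (1 / (p : ℝ) ^ L) := by
          refine Finset.sum_le_sum fun l _ => ?_
          rw [hf l, hs l]
          refine (avg_exp _ _).trans ?_
          rw [← mul_sub, abs_mul]
          have h0 : (0 : ℝ) ≤ 2 * Real.pi * (j * (p : ℝ) ^ l) := by positivity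
          rw [abs_of_nonneg h0]
          calc 2 * Real.pi * (j * (p : ℝ) ^ l) * |t - a / ((p : ℝ) ^ L - 1)|
              ≤ 2 * Real.pi * (j * (p : ℝ) ^ l) * (1 / (p : ℝ) ^ L) :=
                mul_le_mul_of_nonneg_left hnear h0
            _ = 2 * Real.pi * j * (p : ℝ) ^ l * (1 / (p : ℝ) ^ L) := by ring
      _ = 2 * Real.pi * j * ((∑ l ∈ Finset.range L, (p : ℝ) ^ l) * (1 / (p : ℝ) ^ L)) := by
          rw [Finset.sum_mul, Finset.mul_sum]
          exact Finset.sum_congr rfl fun l _ => by ring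
      _ ≤ 2 * Real.pi * j * 1 := by
          refine mul_le_mul_of_nonneg_left ?_ (by positivity)
          rw [mul_one_div, div_le_one hP0]
          exact avg_geom p L hp
      _ = 2 * Real.pi * j := mul_one _
  have hpi : Real.pi < 3.15 := Real.pi_lt_d2
  have hj : (0 : ℝ) ≤ j := Nat.cast_nonneg j
  calc _ ≤ (L : ℝ)⁻¹ * (2 * Real.pi * j) := mul_le_mul_of_nonneg_left hsum (by positivity)
    _ ≤ (L : ℝ)⁻¹ * (7 * j) := by
        refine mul_le_mul_of_nonneg_left ?_ (by positivity)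
        nlinarith
    _ = 7 * j / L := by ring

theorem avg_thm : AVGS := by
  intro p L hp hL μ
  set m : Measure UnitAddCircle := ((μ.1 : ProbabilityMeasure UnitAddCircle) : Measure UnitAddCircle)
    with hm
  have hP : 0 < p ^ L := pow_pos (by omega) L
  refine ⟨fun a => m.real (avgI (p ^ L) ⁻¹' {a}), fun a => measureReal_nonneg, ?_, ?_⟩
  · have h := avg_sumw (p ^ L) hP m (fun _ => 1)
    simp only [mul_one] at h
    have h2 : ∫ _x : UnitAddCircle, (1 : ℂ) ∂m = 1 := by simp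
    rw [h2] at h
    exact_mod_cast h
  · intro j
    rw [avg_sumw (p ^ L) hP m (fun a => S p L a j)]
    have hL0 : (L : ℂ) ≠ 0 := by
      have : L ≠ 0 := by omega
      exact_mod_cast this
    have hint : ∀ n : ℤ, Integrable (fun x : UnitAddCircle => (fourier n x : ℂ)) m := by
      intro n
      refine Integrable.of_bound (map_continuous _).aestronglyMeasurable 1 (Eventually.of_forall fun x => ?_)
      exact le_of_eq (by rw [fourier_apply]; exact Circle.norm_coe _)
    have hfc : fc μ j = ∫ x, (L : ℂ)⁻¹ * ∑ l ∈ Finset.range L, (fourier ((j * p ^ l : ℕ) : ℤ) x : ℂ) ∂m := by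
      rw [integral_const_mul, integral_finsetSum _ fun l _ => hint _]
      have : ∀ l ∈ Finset.range L, ∫ x, (fourier ((j * p ^ l : ℕ) : ℤ) x : ℂ) ∂m = fc μ j :=
        fun l _ => avg_inv p μ l j
      rw [Finset.sum_congr rfl this, Finset.sum_const, Finset.card_range, nsmul_eq_mul,
        ← mul_assoc, inv_mul_cancel₀ hL0, one_mul]
    have hi1 : Integrable (fun x : UnitAddCircle =>
        (L : ℂ)⁻¹ * ∑ l ∈ Finset.range L, (fourier ((j * p ^ l : ℕ) : ℤ) x : ℂ)) m :=
      (integrable_finsetSum _ fun l _ => hint _).const_mul _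
    have hmeas : Measurable fun x : UnitAddCircle => S p L (avgI (p ^ L) x) j :=
      (measurable_from_nat (f := fun a => S p L a j)).comp (avgI_meas (p ^ L))
    have hi2 : Integrable (fun x : UnitAddCircle => S p L (avgI (p ^ L) x) j) m := by
      have h3 : Integrable (fun x : UnitAddCircle =>
          ‖(L : ℂ)⁻¹ * ∑ l ∈ Finset.range L, (fourier ((j * p ^ l : ℕ) : ℤ) x : ℂ)‖ + 7 * j / L) m :=
        hi1.norm.add (integrable_const _)
      refine h3.mono' hmeas.aestronglyMeasurable (Eventually.of_forall fun x => ?_)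
      have h4 := avg_point p L hp hL j x
      have h5 := norm_sub_norm_le (S p L (avgI (p ^ L) x) j)
        ((L : ℂ)⁻¹ * ∑ l ∈ Finset.range L, (fourier ((j * p ^ l : ℕ) : ℤ) x : ℂ))
      rw [norm_sub_rev] at h5
      linarith
    rw [hfc, ← integral_sub hi1 hi2]
    have h := norm_integral_le_of_norm_le_const (μ := m)
      (f := fun x : UnitAddCircle => (L : ℂ)⁻¹ * ∑ l ∈ Finset.range L,
        (fourier ((j * p ^ l : ℕ) : ℤ) x : ℂ) - S p L (avgI (p ^ L) x) j) (C := 7 * j / L)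
      (Eventually.of_forall fun x => avg_point p L hp hL j x)
    have h6 : m.real Set.univ = 1 := by simp
    rw [h6, mul_one] at h
    exact h

end Pool.UCR
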