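import Pool.Agent.H12.UCR.Stmts4

/-!
Row DVG: generic divergence.
-/

set_option autoImplicit false

open MeasureTheory Filter Topology

namespace Pool.UCR

theorem dvg_thm (hCPT : CPTS) (hBDD : BDDS) (hLPT : LPTS) : DVGS := by
  intro p q hp hq hMI hC
  obtain ⟨V, hVo, hVn, k, hk, ε, hε, G, hG, hGd, hb⟩ := hBDD p q hp hq hC
  obtain ⟨G', hG', hG'd, hl⟩ := hLPT p q hp hq hMI
  have : BaireSpace (PP p) := (hCPT p).2.2
  exact ⟨V, hVo, hVn, k, hk, ε, hε, G ∩ G', hG.inter hG', Dense.inter_of_Gδ hG hG' hGd hG'd,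
    fun μ hμ hμV => ⟨hb μ hμ.1 hμV, hl μ hμ.2⟩⟩

end Pool.UCR
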