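import Pool.Agent.H12.UCR.Stmts3

/-!
Row MIX: mixtures with the point mass at `0`.
-/

set_option autoImplicit false

open MeasureTheory Filter Topology

namespace Pool.UCR

theorem mix_thm : MIXS := by
  intro p μ t ht0 ht1
  set m : Measure UnitAddCircle := ((μ.1 : ProbabilityMeasure UnitAddCircle) : Measure UnitAddCircle)
    with hm
  have hmp : IsProbabilityMeasure m := inferInstance
  set n : Measure UnitAddCircle := ENNReal.ofReal (1 - t) • m +
    ENNReal.ofReal t • Measure.dirac (0 : UnitAddCircle) with hn
  have hnp : IsProbabilityMeasure n := by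
    constructor
    rw [hn, Measure.add_apply, Measure.smul_apply, Measure.smul_apply, measure_univ, measure_univ,
      smul_eq_mul, smul_eq_mul, mul_one, mul_one, ← ENNReal.ofReal_add (by linarith) ht0,
      sub_add_cancel, ENNReal.ofReal_one]
  have hc : Continuous fun x : UnitAddCircle => p • x := by fun_prop
  have hinv : n.map (fun x : UnitAddCircle => p • x) = n := by
    have h1 : m.map (fun x : UnitAddCircle => p • x) = m := μ.2
    have h2 : (Measure.dirac (0 : UnitAddCircle)).map (fun x : UnitAddCircle => p • x) =
        Measure.dirac 0 := by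
      rw [Measure.map_dirac' hc.measurable, smul_zero]
    rw [hn, Measure.map_add _ _ hc.measurable, Measure.map_smul, Measure.map_smul, h1, h2]
  refine ⟨⟨⟨n, hnp⟩, hinv⟩, fun j => ?_⟩
  have hint : ∀ (ν : Measure UnitAddCircle) [IsFiniteMeasure ν],
      Integrable (fun x : UnitAddCircle => (fourier (j : ℤ) x : ℂ)) ν := by
    intro ν _
    refine Integrable.of_bound (map_continuous _).aestronglyMeasurable 1
      (Eventually.of_forall fun x => ?_)
    exact le_of_eq (by rw [fourier_apply]; exact Circle.norm_coe _)
  show ∫ x, fourier (j : ℤ) x ∂n = (1 - t : ℂ) * ∫ x, fourier (j : ℤ) x ∂m + t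
  rw [hn, integral_add_measure ((hint m).smul_measure ENNReal.ofReal_ne_top)
    ((hint (Measure.dirac 0)).smul_measure ENNReal.ofReal_ne_top), integral_smul_measure,
    integral_smul_measure, integral_dirac, ENNReal.toReal_ofReal (by linarith),
    ENNReal.toReal_ofReal ht0]
  have h0 : (fourier (j : ℤ) (0 : UnitAddCircle) : ℂ) = 1 := by
    rw [fourier_apply, smul_zero]
    simp
  rw [h0, Complex.real_smul, Complex.real_smul, mul_one]
  push_cast
  ring

end Pool.UCR
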